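import Pool.Agent.TH978.S13.Apex

/-!
# Project NQ, part DZ: the block with one extra point `(c, b) = (-1, -2)`. The test functions and the
vanishing of the extra coefficient.
-/

set_option autoImplicit false

namespace Pool.Agent.L7h14.NQ

open Finset Pool.Agent.TH176.Nag Pool.Agent.TH978.S13

/-- a shift of the exponents -/
def sh (u v : ℤ) : (ℤ × ℤ) ↪ (ℤ × ℤ) := ⟨fun p => (p.1 + u, p.2 + v), by
  intro p q h
  simp only [Prod.mk.injEq, add_left_inj] at h
  exact Prod.ext h.1 h.2⟩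

theorem sh_apply (u v c b : ℤ) : sh u v (c, b) = (c + u, b + v) := rfl

theorem emb_sh (u v : ℤ) (φ : (ℤ × ℤ) →₀ ℚ) (c b : ℤ) : φ.embDomain (sh u v) (c, b) = φ (c - u, b - v) := by
  have := Finsupp.embDomain_apply_self (f := sh u v) (v := φ) (a := (c - u, b - v))
  rw [sh_apply, sub_add_cancel, sub_add_cancel] at this
  exact this

theorem tau_sh (u v : ℤ) (φ : (ℤ × ℤ) →₀ ℚ) (c : ℤ) (Q : ℚ → ℚ) :
    tau (φ.embDomain (sh u v)) c Q = tau φ (c - u) (fun b => Q (b + v)) := by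
  unfold tau
  rw [Finsupp.sum_embDomain]
  refine Finsupp.sum_congr fun p _ => ?_
  obtain ⟨c', b⟩ := p
  rw [sh_apply]
  have : c' + u = c ↔ c' = c - u := by omega
  simp only [this]
  push_cast
  rfl

/-- the test functions `(1 - Y) ^ κ (1 + κ Y) / Y ^ 2` in the column `-1` -/
theorem exists_psiE (κ : ℕ) : ∃ ψ : (ℤ × ℤ) →₀ ℚ,
    (∀ p ∈ ψ.support, p.1 = -1 ∧ (p.2 = -2 ∨ 0 ≤ p.2) ∧ p.2 < κ) ∧ ψ (-1, -2) = 1 ∧
      ∀ k < κ, tau ψ (-1) (fun b => dsc k (b + 2)) = 0 := by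
  obtain ⟨φ, h1, h2, h3⟩ := exists_psi κ
  have hz : ∀ c b : ℤ, (c ≠ 0 ∨ b < -1 ∨ (κ : ℤ) ≤ b) → φ (c, b) = 0 := by
    intro c b h
    by_contra hne
    have := h1 _ (Finsupp.mem_support_iff.2 hne)
    simp only at this
    omega
  have hψ : ∀ c b : ℤ, (φ.embDomain (sh (-1) (-1)) - (φ (0, 0)) • φ.embDomain (sh (-1) 0)) (c, b) =
      φ (c + 1, b + 1) - φ (0, 0) * φ (c + 1, b) := by
    intro c b
    rw [Finsupp.sub_apply, Finsupp.smul_apply, emb_sh, emb_sh, smul_eq_mul]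
    simp only [sub_neg_eq_add, sub_zero]
  refine ⟨φ.embDomain (sh (-1) (-1)) - (φ (0, 0)) • φ.embDomain (sh (-1) 0), ?_, ?_, ?_⟩
  · rintro ⟨c, b⟩ hp
    rw [Finsupp.mem_support_iff, hψ] at hp
    have hc : c = -1 := by
      by_contra hc
      apply hp
      rw [hz (c + 1) (b + 1) (Or.inl (by omega)), hz (c + 1) b (Or.inl (by omega))]
      ring
    subst hc
    refine ⟨rfl, ?_, ?_⟩
    · simp only
      by_contra hb
      push Not at hb
      apply hp
      rcases eq_or_ne b (-1) with h | h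
      · subst h
        norm_num
        rw [h2]
        ring
      · rw [hz (-1 + 1) (b + 1) (Or.inr (Or.inl (by omega))), hz (-1 + 1) b (Or.inr (Or.inl (by omega)))]
        ring
    · simp only
      by_contra hb
      apply hp
      rw [hz (-1 + 1) (b + 1) (Or.inr (Or.inr (by omega))), hz (-1 + 1) b (Or.inr (Or.inr (by omega)))]
      ring
  · rw [hψ]
    norm_num
    rw [h2, hz 0 (-2) (Or.inr (Or.inl (by norm_num)))]
    ring
  · intro k hk
    rw [tau_sub_smul, tau_sh, tau_sh]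
    have e1 : (fun b : ℚ => (dsc k (b + ((-1 : ℤ) : ℚ) + 2) : ℚ)) = fun b => dsc k (b + 1) := by
      funext b; congr 1; push_cast; ring
    have e2 : (fun b : ℚ => (dsc k (b + ((0 : ℤ) : ℚ) + 2) : ℚ)) = fun b => dsc k (b + 1 + 1) := by
      funext b; congr 1; push_cast; ring
    rw [e1, e2]
    have e3 : ((-1 : ℤ) - -1) = 0 := by norm_num
    rw [e3, h3 k hk]
    have h4 : tau φ 0 (fun b => dsc k (b + 1 + 1)) = 0 := by
      cases k with
      | zero =>
        have e : (fun b : ℚ => (dsc 0 (b + 1 + 1) : ℚ)) = fun b => dsc 0 (b + 1) := by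
          funext b; simp [dsc]
        rw [e]
        exact h3 0 hk
      | succ k =>
        have e : (fun b : ℚ => (dsc (k + 1) (b + 1 + 1) : ℚ)) =
            fun b => dsc (k + 1) (b + 1) + ((k : ℚ) + 1) * dsc k (b + 1) := by
          funext b
          rw [dsc_step]
        rw [e, tau_add_right φ 0 (fun b => dsc (k + 1) (b + 1)) (fun b => ((k : ℚ) + 1) * dsc k (b + 1)),
          tau_smul_right φ 0 (fun b => dsc k (b + 1)), h3 k (by omega), h3 (k + 1) hk, mul_zero, add_zero]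
    rw [h4]
    ring

theorem oprs_lowE {K : Type*} [Field K] [CharZero K] (c1 : ℤ) (L : List (K × K)) {f : (ℤ × ℤ) →₀ K}
    {r : ℕ} (hr : 1 ≤ r) (h0 : ∀ b : ℤ, b < -(r : ℤ) → f (c1, b) = 0) (h1 : f (c1, -(r : ℤ)) ≠ 0) :
    (∀ b : ℤ, b < -((r : ℤ) + L.length) → oprs L f (c1, b) = 0) ∧
      oprs L f (c1, -((r : ℤ) + L.length)) ≠ 0 := by
  induction L with
  | nil =>
    simp only [List.length_nil, Nat.cast_zero, add_zero]
    exact ⟨h0, h1⟩
  | cons a L ih =>
    rw [oprs_cons]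
    constructor
    · intro b hb
      rw [List.length_cons] at hb
      push_cast at hb
      rw [opr_apply, ih.1 b (by omega), ih.1 (b + 1) (by omega)]
      simp
    · rw [opr_apply, ih.1 _ (by rw [List.length_cons]; push_cast; omega), zero_mul, zero_sub,
        neg_ne_zero]
      have e : -((r : ℤ) + ((a :: L).length : ℕ)) + 1 = -((r : ℤ) + L.length) := by
        rw [List.length_cons]; push_cast; ring
      rw [e]
      refine mul_ne_zero ih.2 ?_
      have : ((-((r : ℤ) + ((a :: L).length : ℕ)) : ℤ) : K) + 1 = ((-((r : ℤ) + L.length) : ℤ) : K) := by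
        rw [← e]; push_cast; ring
      rw [this, Int.cast_ne_zero]
      omega

/-- a nonzero Laurent polynomial in `Y` (in the column `-1`) does not vanish at some rational number -/
theorem exists_yE {P : (ℤ × ℤ) →₀ ℚ} (hP : ∀ p ∈ P.support, p.1 = -1) (h0 : P ≠ 0) :
    ∃ y : ℚ, y ≠ 0 ∧ y ≠ 1 ∧ pr P 1 y (fun _ => 1) ≠ 0 := by
  have h1 : ∀ p ∈ (P.embDomain (sh 1 0)).support, p.1 = 0 := by
    rintro ⟨c, b⟩ hp
    rw [Finsupp.mem_support_iff, emb_sh] at hp
    have := hP _ (Finsupp.mem_support_iff.2 hp)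
    simp only at this ⊢
    omega
  have h2 : P.embDomain (sh 1 0) ≠ 0 := by
    intro h
    apply h0
    ext ⟨c, b⟩
    have := emb_sh 1 0 P (c + 1) b
    rw [h] at this
    simpa using this.symm
  obtain ⟨y, hy0, hy1, hy⟩ := exists_y h1 h2
  refine ⟨y, hy0, hy1, ?_⟩
  intro h
  apply hy
  rw [← h]
  unfold pr
  rw [Finsupp.sum_embDomain]
  refine Finsupp.sum_congr fun p _ => ?_
  obtain ⟨c, b⟩ := p
  rw [sh_apply]
  simp

/-- the extra coefficient vanishes -/
theorem apexE {m : ℕ} {L : List (ℚ × ℚ)} (hlen : L.length + 1 = m) {ψ : (ℤ × ℤ) →₀ ℚ}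
    (h1 : ∀ p ∈ ψ.support, p.1 = -1 ∧ (p.2 = -2 ∨ 0 ≤ p.2)) (h2 : ψ (-1, -2) = 1) :
    ∃ y0 : ℚ, y0 ≠ 0 ∧ y0 ≠ 1 ∧ ∀ g : (ℤ × ℤ) →₀ ℚ, LM g 1 y0 m →
      (∀ p ∈ g.support, 0 ≤ p.2 ∨ p = (-1, -2)) →
      (∀ (c : ℤ) (k : ℕ), tau (g - g (-1, -2) • ψ) c (dsc k) ≠ 0 →
        ∃ a ∈ L, (k : ℚ) - a.1 - a.2 * c = 0) → g (-1, -2) = 0 := by
  have hψ0 : ∀ p : ℤ × ℤ, (p.1 ≠ -1 ∨ (p.2 < 0 ∧ p.2 ≠ -2)) → ψ p = 0 := by
    intro p hp
    by_contra hne
    have := h1 p (Finsupp.mem_support_iff.2 hne)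
    omega
  have hP0 : oprs L ψ ≠ 0 := by
    intro h
    have := (oprs_lowE (-1) L (f := ψ) (r := 2) (by norm_num)
      (fun b hb => hψ0 _ (Or.inr ⟨by simp only; push_cast at hb; omega, by simp only; push_cast at hb; omega⟩))
      (by
        have e : (-((2 : ℕ) : ℤ)) = -2 := by norm_num
        rw [e, h2]; exact one_ne_zero)).2
    rw [h] at this
    exact this rfl
  have hPs : ∀ p ∈ (oprs L ψ).support, p.1 = -1 := by
    intro p hp
    by_contra hne
    apply Finsupp.mem_support_iff.1 hp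
    have : p = (p.1, p.2) := rfl
    rw [this]
    exact oprs_col L (fun b => hψ0 _ (Or.inl hne)) _
  obtain ⟨y, hy0, hy1, hy⟩ := exists_yE hPs hP0
  refine ⟨y, hy0, hy1, fun g hg hs hk => ?_⟩
  have hf0 : oprs L (g - g (-1, -2) • ψ) = 0 := by
    have hpos : ∀ (c b : ℤ), b < 0 → (g - g (-1, -2) • ψ) (c, b) = 0 := by
      intro c b hb
      rw [Finsupp.sub_apply, Finsupp.smul_apply, smul_eq_mul]
      by_cases h : (c, b) = (-1, -2)
      · rw [h, h2]; ring
      · have hgz : g (c, b) = 0 := by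
          by_contra hne
          rcases hs _ (Finsupp.mem_support_iff.2 hne) with h3 | h3
          · simp only at h3; omega
          · exact h h3
        have hψz : ψ (c, b) = 0 := by
          apply hψ0
          by_contra hne
          push Not at hne
          apply h
          simp only at hne
          exact Prod.ext hne.1 (hne.2 hb)
        rw [hgz, hψz]; ring
    ext ⟨c, b⟩
    rw [Finsupp.zero_apply]
    refine eq_zero_of_tau (oprs_pos L (hpos c)) (fun l => ?_) b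
    rw [tau_oprs]
    by_cases ht : tau (g - g (-1, -2) • ψ) c (dsc l) = 0
    · rw [ht, mul_zero]
    · obtain ⟨a, ha, ha0⟩ := hk c l ht
      rw [List.prod_eq_zero (List.mem_map.2 ⟨a, ha, ha0⟩), zero_mul]
  rw [oprs_sub_smul, sub_eq_zero] at hf0
  have hL : LM (oprs L g) 1 y 1 := LM_oprs hy0 L (by rw [add_comm, hlen]; exact hg)
  have h3 := hL _ (mem_PF_mono (K := ℚ) (a := 0) (b := 0) (w := 1) (by omega))
  have h4 : (fun u : ℚ × ℚ => u.1 ^ 0 * u.2 ^ 0) = fun _ => (1 : ℚ) := by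
    funext u; simp
  rw [h4, hf0] at h3
  have h5 : pr (g (-1, -2) • oprs L ψ) 1 y (fun _ => 1) = g (-1, -2) * pr (oprs L ψ) 1 y (fun _ => 1) := by
    unfold pr
    rw [Finsupp.sum_smul_index (by intro p; simp), Finsupp.mul_sum]
    refine Finsupp.sum_congr fun p _ => ?_
    ring
  rw [h5] at h3
  rcases mul_eq_zero.1 h3 with h6 | h6
  · exact h6
  · exact absurd h6 hy

end Pool.Agent.L7h14.NQ
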