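import Pool.Agent.L7h14.NQ.LeadE
import Pool.Agent.TH469.SX.Dich

/-!
# Project NQ, part DZ: emptiness with the extra point `(-1, 0)`, or independence

This is what is missing for `20` points in the degrees divisible by four.
-/

set_option autoImplicit false

namespace Pool.Agent.L7h14.NQ

open Finset Pool.Agent.TH176.Nag Pool.Agent.TH603.Sur Pool.Agent.TH603.Cut
open Pool.Agent.TH469.SX (Fl Sur_blk Sur_rows')
open Pool.Agent.TH864.SX (Slp)

/-- **DZ**: emptiness with the extra point `(-1, 0)`, or independence, `q = 1`. -/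
def S_DZ : Prop := ∀ (M : ℕ) (K A : ℝ) (m : ℕ), Slp M 1 K → 0 ≤ A →
  Emp (fun _ : Fin (M + 4) => m) (Fl 1 K A ∪ {((-1, 0) : ℤ × ℤ)}) ∨
    Sur (fun _ : Fin (M + 4) => m) (Fl 1 K A)

/-- emptiness with the extra point if some row is deficient -/
theorem Emp_ext {M m : ℕ} {K A : ℝ} (hK : 0 < K) (hK2 : K ^ 2 = M * K + M) (hA : 0 ≤ A)
    (h1 : A - (K + 2) * m < 1)
    (hdef : ∃ k : ℕ, k < m ∧ ⌊A - (K + 2) * k⌋ + ⌊(A - (K + 2) * k - 1) / (K + 1)⌋ <
      ((M : ℤ) + 4) * ((m : ℤ) - k)) :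
    Emp (fun _ : Fin (M + 4) => m) (Fl 1 K A ∪ {((-1, 0) : ℤ × ℤ)}) := by
  refine (Emp_BlkE hK hK2 (by linarith) h1 hdef).comap 1 (-2) 1 (-1) 0 (-1) (by norm_num) ?_
  rintro ⟨x, s⟩ h
  rcases h with ⟨g1, g2, g3, g4⟩ | h
  · simp only at g1 g2 g3 g4
    push_cast at g3
    left
    refine ⟨by simp only; omega, by simp only; omega, ?_⟩
    simp only
    push_cast
    linarith
  · rw [Set.mem_singleton_iff, Prod.mk.injEq] at h
    right
    rw [Set.mem_singleton_iff, h.1, h.2]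
    norm_num

theorem s_DZ : S_DZ := by
  intro M K A m h hA0
  have hK0 := h.K0
  have hK : ((1 : ℕ) : ℝ) * (K * (K - M)) = M := h.eq
  have hK2 : K ^ 2 = M * K + M := by
    have := h.eq
    push_cast at this
    linarith
  have hpq : 2 * 1 = 2 := rfl
  have hcard : Fintype.card (Fin (M + 4)) = M + 2 * 2 := by simp
  have hK1 : 0 < K + 1 := by linarith
  rcases le_or_gt ((1 : ℕ) * (m : ℝ) * (K + (2 : ℕ)) + 1) ((1 : ℕ) * A) with h1 | h1
  · exact Or.inr (Sur_blk hpq hK0 hK hcard h1)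
  have h1' : A - (K + 2) * m < 1 := by
    push_cast at h1
    linarith
  by_cases hrow : ∀ k : ℕ, k < m → (M + 2 * (2 : ℕ) : ℤ) * ((m : ℤ) - k) ≤
      ⌊A - (K + (2 : ℕ)) * k⌋ +
        ⌊(A - (K + (2 : ℕ)) * k - (K + (2 : ℕ))) / ((1 : ℕ) * (K + (2 : ℕ)) - 1)⌋ + 1
  · exact Or.inr (Sur_rows' hpq hK0 hcard hrow)
  · left
    push Not at hrow
    obtain ⟨k, hk, hk2⟩ := hrow
    refine Emp_ext hK0 hK2 hA0 h1' ⟨k, hk, ?_⟩
    push_cast at hk2
    have e : (A - (K + 2) * (k : ℝ) - (K + 2)) / (1 * (K + 2) - 1) =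
        (A - (K + 2) * k - 1) / (K + 1) - (1 : ℕ) := by
      have e1 : 1 * (K + 2) - 1 = K + 1 := by ring
      rw [e1]
      field_simp
      push_cast
      ring
    rw [e, Int.floor_sub_natCast] at hk2
    push_cast at hk2
    linarith

end Pool.Agent.L7h14.NQ
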