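import Pool.Agent.L7h14.NQ.LeadN
import Pool.Agent.TH469.SX.Near

/-!
# Part DZ for nearly equal multiplicities: emptiness with the extra point `(-1, 0)`, or independence
-/

set_option autoImplicit false

namespace Pool.Agent.L7h14.NQ

open Finset Pool.Agent.TH176.Nag Pool.Agent.TH603.Sur Pool.Agent.TH603.Cut
open Pool.Agent.TH469.SX (Fl)
open Pool.Agent.TH864.SX (Slp)
open Pool.Agent.TH759.EV (Sur_rows_w)

/-- the dichotomy, with a distinguished point of multiplicity `m` -/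
theorem dich_blkN {ι : Type} [Fintype ι] [DecidableEq ι] {w : ι → ℕ} (i0 : ι) {M m : ℕ} {K D : ℝ}
    (hK : 0 < K) (hK2 : K ^ 2 = M * K + M) (hD0 : 0 ≤ D) (hw0 : w i0 = m) {n1 : ℤ} {e e' : ℝ}
    (hD : D = (K + 2) * m + e) (hn1 : e' = e - n1)
    (heK : e < K + 2) (hc1 : (e' - 1) * (K + 1) < 1) (h1 : e' * (K + 1) + e < K + 2)
    (hsum : ∀ k : ℕ, k < m → ((∑ i, (w i - k) : ℕ) : ℤ) = ((M : ℤ) + 4) * ((m : ℤ) - k) + n1)
    (hs : e - 1 < ∑ i, ((w i - m : ℕ) : ℝ))
    (hle : ∀ i, w i ≤ m + 1)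
    (hm' : (∃ i, m < w i) → ((∑ i, (w i - m) : ℕ) : ℤ) ≤ n1 ∧ (n1 : ℝ) ≤ e) :
    Emp w (Fl 1 K D ∪ {((-1, 0) : ℤ × ℤ)}) ∨ Sur w (Fl 1 K D) := by
  have hK1 : 0 < K + 1 := by linarith
  by_cases hdef : ∃ k : ℕ, k < m ∧ ⌊D - (K + 2) * k⌋ + ⌊(D - (K + 2) * k - 1) / (K + 1)⌋ <
      ((M : ℤ) + 4) * ((m : ℤ) - k) + n1
  · left
    refine (Emp_BlkN i0 hK hK2 (by linarith) hw0 hD hn1 heK hc1 h1 (fun k hk => ?_) hs hdef).comap
      1 (-2) 1 (-1) 0 (-1) (by norm_num) ?_
    · have h2 := hsum k hk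
      have h3 : (((∑ i, (w i - k) : ℕ) : ℤ) : ℝ) = ((((M : ℤ) + 4) * ((m : ℤ) - k) + n1 : ℤ) : ℝ) := by
        rw [h2]
      push_cast at h3
      rw [h3]
    · rintro ⟨x, s⟩ h
      rcases h with ⟨g1, g2, g3, g4⟩ | h
      · simp only at g1 g2 g3 g4
        push_cast at g3
        left
        refine ⟨by simp only; omega, by simp only; omega, ?_⟩
        simp only
        push_cast
        linarith
      · rw [Set.mem_singleton_iff, Prod.mk.injEq] at h
        right
        rw [Set.mem_singleton_iff, h.1, h.2]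
        norm_num
  · right
    push Not at hdef
    refine Sur_rows_w (p := 2) (q := 1) (by norm_num) hK fun k hk => ?_
    have e1 : ∀ Y : ℝ, (Y - (K + (2 : ℕ))) / (((1 : ℕ) : ℝ) * (K + (2 : ℕ)) - 1) = (Y - 1) / (K + 1) - 1 := by
      intro Y
      have : ((1 : ℕ) : ℝ) * (K + (2 : ℕ)) - 1 = K + 1 := by push_cast; ring
      rw [this]
      field_simp
      push_cast
      ring
    rw [e1, Int.floor_sub_one]
    push_cast
    obtain ⟨i, hi⟩ := hk
    have hkm : k ≤ m := by have := hle i; omega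
    rcases hkm.lt_or_eq with hkm | hkm
    · have h2 := hsum k hkm
      have h3 := hdef k hkm
      push_cast at h2
      omega
    · subst hkm
      obtain ⟨h2, h2'⟩ := hm' ⟨i, hi⟩
      have h3 : 0 < ∑ i, (w i - k) := sum_pos' (fun _ _ => Nat.zero_le _) ⟨i, mem_univ _, by omega⟩
      have h4 : 1 ≤ n1 := by omega
      have h4R : (1 : ℝ) ≤ n1 := by exact_mod_cast h4
      have h5 : n1 ≤ ⌊D - (K + 2) * k⌋ := by
        rw [Int.le_floor, hD]
        linarith
      have h6 : 0 ≤ ⌊(D - (K + 2) * k - 1) / (K + 1)⌋ := by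
        apply Int.floor_nonneg.2
        apply div_nonneg _ hK1.le
        rw [hD]
        linarith
      push_cast at h2
      omega

/-- **DZ for nearly equal multiplicities**: `M + 4` points of multiplicities `m` and `m + 1` -/
theorem s_DZN {M m : ℕ} {K D : ℝ} (h : Slp M 1 K) (hD0 : 0 ≤ D)
    {w : Fin (M + 4) → ℕ} (hw : ∀ i, w i = m ∨ w i = m + 1) :
    Emp w (Fl 1 K D ∪ {((-1, 0) : ℤ × ℤ)}) ∨ Sur w (Fl 1 K D) := by
  have hK0 : 0 < K := h.K0
  have hK2 : K ^ 2 = M * K + M := by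
    have := h.eq
    push_cast at this
    linarith
  have hM := h.hM
  have hMR : (1 : ℝ) ≤ M := by exact_mod_cast hM
  have hK1 : 0 < K + 1 := by linarith
  have hKM : (M : ℝ) < K := h.hMK
  have hKM1 : K < M + 1 := by
    by_contra hcon
    push Not at hcon
    have := mul_le_mul_of_nonneg_left hcon hK0.le
    nlinarith
  have hKK : (K + 2) ^ 2 = (M + 4) * (K + 1) := by linear_combination hK2
  -- the multiplicities
  obtain ⟨n1, hn1⟩ : ∃ n1 : ℕ, n1 = ∑ i, (w i - m) := ⟨_, rfl⟩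
  have hS : ∀ k : ℕ, k ≤ m → ∑ i, (w i - k) = (M + 4) * (m - k) + n1 := by
    intro k hk
    rw [hn1]
    have : (M + 4) * (m - k) = ∑ _i : Fin (M + 4), (m - k) := by simp
    rw [this, ← sum_add_distrib]
    refine sum_congr rfl fun i _ => ?_
    rcases hw i with h | h <;> omega
  have hn0 : (0 : ℝ) ≤ n1 := Nat.cast_nonneg _
  -- if all are `m + 1`
  by_cases hall : ∀ i, w i = m + 1
  · -- base `m + 1`, `n1 = 0`
    obtain ⟨e, he⟩ : ∃ e : ℝ, e = D - (K + 2) * (m + 1 : ℕ) := ⟨_, rfl⟩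
    have hDm : D = (K + 2) * (m + 1 : ℕ) + e := by rw [he]; ring
    have hS2 : ∀ k : ℕ, k < m + 1 → ((∑ i, (w i - k) : ℕ) : ℤ) =
        ((M : ℤ) + 4) * (((m + 1 : ℕ) : ℤ) - k) + (0 : ℤ) := by
      intro k hk
      have : ∑ i, (w i - k) = (M + 4) * (m + 1 - k) := by
        rw [Finset.sum_congr rfl fun i _ => by rw [hall i]]
        simp
      rw [this]
      push_cast [Nat.cast_sub hk.le]
      ring
    have hz : ∑ i, (w i - (m + 1)) = 0 := sum_eq_zero fun i _ => by have := hall i; omega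
    rcases lt_or_ge (e * (K + 1) + e) (K + 2) with hwin | hX
    · have he1 : e < 1 := by
        by_contra hcon
        push Not at hcon
        nlinarith
      refine dich_blkN (n1 := 0) (e' := e) ⟨0, by omega⟩ hK0 hK2 hD0 (hall _) hDm (by push_cast; ring)
        (by linarith) (by nlinarith) hwin hS2 ?_ (fun i => by have := hall i; omega) ?_
      · have : (∑ i, ((w i - (m + 1) : ℕ) : ℝ)) = ((∑ i, (w i - (m + 1)) : ℕ) : ℝ) := by push_cast; rfl
        rw [this, hz]
        push_cast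
        linarith
      · rintro ⟨i, hi⟩
        have := hall i
        omega
    · right
      refine Sur_rows_w (p := 2) (q := 1) (by norm_num) hK0 fun k hk => ?_
      have e1 : ∀ Y : ℝ, (Y - (K + (2 : ℕ))) / (((1 : ℕ) : ℝ) * (K + (2 : ℕ)) - 1) = (Y - 1) / (K + 1) - 1 := by
        intro Y
        have : ((1 : ℕ) : ℝ) * (K + (2 : ℕ)) - 1 = K + 1 := by push_cast; ring
        rw [this]
        field_simp
        push_cast
        ring
      rw [e1, Int.floor_sub_one]
      push_cast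
      obtain ⟨i, hi⟩ := hk
      have hkm : k < m + 1 := by have := hall i; omega
      have h4 := hS2 k hkm
      obtain ⟨x, hx⟩ : ∃ x : ℝ, x = D - (K + 2) * k := ⟨_, rfl⟩
      rw [← hx]
      have hx1 : x = (K + 2) * (((m : ℝ) + 1) - k) + e := by rw [hx, hDm]; push_cast; ring
      have hf1 := Int.lt_floor_add_one x
      have hf2 := Int.lt_floor_add_one ((x - 1) / (K + 1))
      have hq : (x - 1) / (K + 1) = ((M : ℝ) + 4) * (((m : ℝ) + 1) - k) + (e * (K + 2) - 1) / (K + 1) - x := by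
        have hne : K + 1 ≠ 0 := hK1.ne'
        have h5 : (((M : ℝ) + 4) * (((m : ℝ) + 1) - k) + (e * (K + 2) - 1) / (K + 1) - x) * (K + 1) = x - 1 := by
          have h6 : (e * (K + 2) - 1) / (K + 1) * (K + 1) = e * (K + 2) - 1 := div_mul_cancel₀ _ hne
          have h7 : (((M : ℝ) + 4) * (((m : ℝ) + 1) - k) + (e * (K + 2) - 1) / (K + 1) - x) * (K + 1) =
              ((M : ℝ) + 4) * (((m : ℝ) + 1) - k) * (K + 1) + (e * (K + 2) - 1) / (K + 1) * (K + 1) - x * (K + 1) := by ring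
          rw [h7, h6, hx1]
          linear_combination (-(((m : ℝ) + 1) - k)) * hKK
        rw [div_eq_iff hne, h5]
      have hq2 : (1 : ℝ) ≤ (e * (K + 2) - 1) / (K + 1) := by
        rw [le_div_iff₀ hK1]; linarith
      have h3 : (((M : ℤ) + 4) * (((m : ℤ) + 1) - k) - 1 : ℤ) < ⌊x⌋ + ⌊(x - 1) / (K + 1)⌋ := by
        have : ((((M : ℤ) + 4) * (((m : ℤ) + 1) - k) - 1 : ℤ) : ℝ) < ((⌊x⌋ + ⌊(x - 1) / (K + 1)⌋ : ℤ) : ℝ) := by
          push_cast
          linarith
        exact_mod_cast this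
      push_cast at h4
      rw [h4]
      linarith
  push Not at hall
  obtain ⟨i0, hi0⟩ := hall
  have hw0 : w i0 = m := by
    rcases hw i0 with h | h
    · exact h
    · exact absurd h hi0
  have hn12 : n1 ≤ M + 3 := by
    have h1 : n1 = ∑ i ∈ univ.erase i0, (w i - m) := by
      rw [hn1, ← Finset.add_sum_erase univ _ (mem_univ i0), hw0]
      simp
    rw [h1]
    have h2 : ∑ i ∈ univ.erase i0, (w i - m) ≤ ∑ i ∈ univ.erase i0, 1 :=
      sum_le_sum fun i _ => by rcases hw i with h | h <;> omega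
    have h3 : ∑ i ∈ univ.erase i0, 1 = M + 3 := by
      rw [sum_const, card_erase_of_mem (mem_univ _)]
      simp
    omega
  have hn12R : (n1 : ℝ) ≤ M + 3 := by exact_mod_cast hn12
  obtain ⟨e, he⟩ : ∃ e : ℝ, e = D - (K + 2) * m := ⟨_, rfl⟩
  have hDm : D = (K + 2) * m + e := by rw [he]; ring
  rcases le_or_gt (K + 2) ((e - n1) * (K + 1) + e) with hX | hwin
  · -- all rows are long
    right
    have hX' : ((n1 : ℝ) + 1) * (K + 1) ≤ e * (K + 2) - 1 := by linarith
    refine Sur_rows_w (p := 2) (q := 1) (by norm_num) hK0 fun k hk => ?_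
    have e1 : ∀ Y : ℝ, (Y - (K + (2 : ℕ))) / (((1 : ℕ) : ℝ) * (K + (2 : ℕ)) - 1) = (Y - 1) / (K + 1) - 1 := by
      intro Y
      have : ((1 : ℕ) : ℝ) * (K + (2 : ℕ)) - 1 = K + 1 := by push_cast; ring
      rw [this]
      field_simp
      push_cast
      ring
    rw [e1, Int.floor_sub_one]
    push_cast
    obtain ⟨i, hi⟩ := hk
    have hkm : k ≤ m := by rcases hw i with h | h <;> omega
    have h2 := hS k hkm
    obtain ⟨x, hx⟩ : ∃ x : ℝ, x = D - (K + 2) * k := ⟨_, rfl⟩
    rw [← hx]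
    have hx1 : x = (K + 2) * ((m : ℝ) - k) + e := by rw [hx, hDm]; ring
    have hf1 := Int.lt_floor_add_one x
    have hf2 := Int.lt_floor_add_one ((x - 1) / (K + 1))
    have hq : (x - 1) / (K + 1) = ((M : ℝ) + 4) * ((m : ℝ) - k) + (e * (K + 2) - 1) / (K + 1) - x := by
      have hne : K + 1 ≠ 0 := hK1.ne'
      have h5 : (((M : ℝ) + 4) * ((m : ℝ) - k) + (e * (K + 2) - 1) / (K + 1) - x) * (K + 1) = x - 1 := by
        have h6 : (e * (K + 2) - 1) / (K + 1) * (K + 1) = e * (K + 2) - 1 := div_mul_cancel₀ _ hne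
        have h7 : (((M : ℝ) + 4) * ((m : ℝ) - k) + (e * (K + 2) - 1) / (K + 1) - x) * (K + 1) =
            ((M : ℝ) + 4) * ((m : ℝ) - k) * (K + 1) + (e * (K + 2) - 1) / (K + 1) * (K + 1) - x * (K + 1) := by ring
        rw [h7, h6, hx1]
        linear_combination (-((m : ℝ) - k)) * hKK
      rw [div_eq_iff hne, h5]
    have hq2 : (n1 : ℝ) + 1 ≤ (e * (K + 2) - 1) / (K + 1) := by
      rw [le_div_iff₀ hK1]; exact hX'
    have h3 : (((M : ℤ) + 4) * ((m : ℤ) - k) + n1 - 1 : ℤ) < ⌊x⌋ + ⌊(x - 1) / (K + 1)⌋ := by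
      have : ((((M : ℤ) + 4) * ((m : ℤ) - k) + n1 - 1 : ℤ) : ℝ) < ((⌊x⌋ + ⌊(x - 1) / (K + 1)⌋ : ℤ) : ℝ) := by
        push_cast
        linarith
      exact_mod_cast this
    have h4 : ((∑ i, (w i - k) : ℕ) : ℤ) = ((M : ℤ) + 4) * ((m : ℤ) - k) + n1 := by
      rw [h2]
      push_cast [Nat.cast_sub hkm]
      ring
    push_cast at h4
    rw [h4]
    linarith
  have hsm : (∑ i, ((w i - m : ℕ) : ℝ)) = n1 := by rw [hn1]; push_cast; rfl
  have hsumm : ∀ k : ℕ, k < m → ((∑ i, (w i - k) : ℕ) : ℤ) = ((M : ℤ) + 4) * ((m : ℤ) - k) + (n1 : ℤ) := by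
    intro k hk
    rw [hS k hk.le]
    push_cast [Nat.cast_sub hk.le]
    ring
  rcases le_or_gt (n1 : ℝ) e with hge | hlt
  · -- base `m`
    have h2 : (e - n1) * (K + 2) < 1 * (K + 2) := by nlinarith
    have h3 := lt_of_mul_lt_mul_right h2 (by linarith)
    have h4 : e < K + 2 := by
      have : 0 ≤ (e - n1) * (K + 1) := mul_nonneg (by linarith) hK1.le
      linarith
    refine dich_blkN (n1 := (n1 : ℤ)) (e' := e - n1) i0 hK0 hK2 hD0 hw0 hDm (by push_cast; ring)
      h4 (by nlinarith) hwin hsumm ?_ (fun i => by rcases hw i with h | h <;> omega) ?_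
    · rw [hsm]; linarith
    · intro _
      refine ⟨by rw [← hn1], by push_cast; exact hge⟩
  · by_cases h0 : n1 = 0
    · -- base `m`, all are `m`
      have h0R : (n1 : ℝ) = 0 := by rw [h0]; simp
      have hz : ∀ i, w i - m = 0 := by
        intro i
        have h2 : ∑ i, (w i - m) = 0 := by rw [← hn1, h0]
        exact (Finset.sum_eq_zero_iff.1 h2) i (mem_univ _)
      rw [h0R] at hlt
      refine dich_blkN (n1 := (n1 : ℤ)) (e' := e - n1) i0 hK0 hK2 hD0 hw0 hDm (by push_cast; ring)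
        (by linarith) ?_ hwin hsumm ?_ (fun i => by rcases hw i with h | h <;> omega) ?_
      · rw [h0R]; nlinarith
      · rw [hsm, h0R]; linarith
      · rintro ⟨i, hi⟩
        have := hz i
        omega
    · -- base `m + 1`
      obtain ⟨i1, hi1⟩ : ∃ i1, w i1 = m + 1 := by
        by_contra hcon
        push Not at hcon
        apply h0
        rw [hn1]
        refine sum_eq_zero fun i _ => ?_
        rcases hw i with h | h
        · omega
        · exact absurd h (hcon i)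
      have hid : ((M : ℝ) + 2 - K) * (K + 1) = K + 2 := by linear_combination (-1 : ℝ) * hK2
      refine dich_blkN (n1 := (n1 : ℤ) - (M + 4)) (e := e - (K + 2)) (e' := e - n1 + (M + 2 - K))
        (m := m + 1) i1 hK0 hK2 hD0 hi1 (by rw [hDm]; push_cast; ring) (by push_cast; ring)
        (by linarith) ?_ ?_ ?_ ?_ (fun i => by rcases hw i with h | h <;> omega) ?_
      · have h5 : (e - n1 + (M + 2 - K) - 1) * (K + 1) = (e - n1) * (K + 1) + (((M : ℝ) + 2 - K) * (K + 1) - (K + 1)) := by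
          ring
        rw [h5, hid]
        have h6 : (e - n1) * (K + 1) < 0 := mul_neg_of_neg_of_pos (by linarith) hK1
        linarith
      · have h5 : (e - n1 + (M + 2 - K)) * (K + 1) + (e - (K + 2)) =
          (e - n1) * (K + 1) + e + (((M : ℝ) + 2 - K) * (K + 1) - (K + 2)) := by ring
        rw [h5, hid]
        linarith
      · intro k hk
        rw [hS k (by omega)]
        push_cast [Nat.cast_sub (show k ≤ m by omega)]
        ring
      · have h5 : (0 : ℝ) ≤ ∑ i, ((w i - (m + 1) : ℕ) : ℝ) := sum_nonneg fun i _ => Nat.cast_nonneg _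
        linarith
      · rintro ⟨i, hi⟩
        rcases hw i with h | h <;> omega

end Pool.Agent.L7h14.NQ
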