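import Pool.Agent.L7h14.NQ.Dz
import Pool.Agent.L7h52.NQ.Num
import Pool.Agent.L7h52.NQ.Stm2

/-!
# Project NQ: 20 points, emptiness or independence in ALL degrees
-/

set_option autoImplicit false

namespace Pool.Agent.L7h14.NQ

open Finset Pool.Agent.TH176.Nag Pool.Agent.TH603.Sur Pool.Agent.TH603.Cut
open Pool.Agent.TH864.SX (Slp)
open Pool.Agent.TH469.SX
open Pool.Agent.L7h52.NQ

/-- **20 points of one multiplicity: emptiness or independence, in every degree** -/
theorem dich20all (P : Parts) (hF : S_FLZ) (hO : S_ONEZ) (hDZ : S_DZ) (m d : ℕ) :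
    Emp (fun _ : Fin 20 => m) (TZ d) ∨ Sur (fun _ : Fin 20 => m) (TZ d) := by
  by_cases h4 : ¬ 4 ∣ d
  · exact dich20' P h4
  push Not at h4
  rcases Nat.eq_zero_or_pos d with rfl | hd
  · exact dich_zero (by norm_num) m
  have hsl := slp20'
  have hlt := lt20'
  obtain ⟨K, hK⟩ : ∃ K : ℝ, K = ((8 : ℕ) : ℝ) + (4 : ℕ) * √((5 : ℕ) : ℝ) := ⟨_, rfl⟩
  rw [← hK] at hsl hlt
  have h16 : (16 : ℝ) < K := by have := hsl.hMK; push_cast at this; exact this
  rcases hDZ 16 K (AA K d) m hsl (AA_nonneg hsl.K0 hd) with h | h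
  · left
    have h1 := hF 1 K d (Fin 20) (fun _ => m) hsl h
    have h2 := hO K d hsl.irr h16 hlt h4 (Fin 20) (fun _ => m) h1
    exact P.emp _ _ d ((24 - K) / 16) (by linarith) (by linarith) h2
  · exact Or.inr (one_sur P (b := 20) hsl hlt h)

end Pool.Agent.L7h14.NQ
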